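import Pool.Agent.H31.FWX.All

/-!
# The bound of Weyl for the `L`-functions of Hecke characters with friable conductors

Let `K` be a number field of degree `m`. The conductor of the Hecke character `χ` is factored as
`f = l (g q) r`, `l (g q)` prime to `r`, where the prime divisors of `r` have norms at most `Y`. The
theorem gives for all real `t`

  `|L(1/2 + it, χ)| ≤ C (|d_K| N(f) C_∞)^ε |d_K|^(1/4)
    (Y N(f)^(1/6) + Y N(l g)^(1/2) N(r)^(1/6) + N(q)^(1/4)) C_∞^(1/6)`,
  `C_∞ = ∏_v (1 + |t - ν_v| + |k_v|)^(e_v)`,

where `C` depends only on `m` and `ε`. The factors `l`, `g`, `q` satisfy `GQ l g q`: `l` is prime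
to `g q`, the prime divisors of `g` divide `q`, and for each prime `P` dividing `q` either `P` does
not divide `g` and `P ^ 3` does not divide `q`, or `P ^ 2` divides `q` and the exponent of `P` in `g`
is larger than the exponent of `P` in `2`. The character has to be primitive at the primes of `q r`.

With `l = g = 1` and `q = 1` this is the bound of Weyl, with exponent `1/6` in the norm of the
conductor and in all parameters at infinity at the same time, for all friable conductors: for
arbitrary products of powers of primes of norm at most `Y`, with the factor `Y`. With `l = g = 1`
it is the bound of Weyl for all conductors `f = q r`, `q` cube-free and prime to `r`, for which the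
norm of the friable part `r` is at least `N(f)^(1/3)`. With `g = k`, `q = k ^ 2` it is the bound of
Weyl for the conductors which are cubes of odd ideals `k`, `k` arbitrary.

Outline of the proof. The approximate functional equation gives two smooth sums over ideals, which
are unfolded to integrals over positions of sums over the points of a fractional ideal in boxes in
`K_∞`. The differencing step of van der Corput is carried out in `K_∞` for the product of all
archimedean places and in `O/f` at the same time: the differences are the elements of the ideal
`l g` in a box. The correlations are periodic modulo `q`, the Poisson formula is applied modulo `q`,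
and the complete sums `∑_x χ(x + h) conj χ(x) ψ(x)` are bounded by the square root of the modulus.
At the primes `P` which divide `q` at most twice and do not divide `g` this is the Riemann
hypothesis for the curve, proved here through the `L`-functions of the mixed character sums and
the method of Stepanov, and an elementary computation modulo `P ^ 2`; at the other primes it is
proved by stationary phase in the finite ring, with all the singular cases and with the primes
above `2`. The integrals over `K_∞` are those of the archimedean theorem of Weyl type. The
factorization of the friable part is chosen such that `N(l g)` is about `N(f)^(1/3)`.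
-/

set_option autoImplicit false

open NumberField NumberField.InfinitePlace Complex

namespace Pool.Agent.H31.Kept.FriableWeyl

open Pool.Agent.H23.LC Pool.Agent.H29.DW
open Pool.Agent.H31.FW (GQ Fri WR)

theorem result (m : ℕ) (hm : 1 ≤ m) (ε : ℝ) (hε : 0 < ε) :
    ∃ C : ℝ, ∀ (K : Type) [Field K] [NumberField K], Module.finrank ℚ K = m →
      ∀ (l g q r f : Ideal (𝓞 K)) (Y : ℝ), GQ l g q → r ≠ ⊥ → l * (g * q) ⊔ r = ⊤ →
      f = l * (g * q) * r → 1 ≤ Y → Fri r Y → ∀ χ : HG K f, PrG (q * r) χ →
      ∃ L : ℂ → ℂ, IsCon χ L ∧ ∀ t : ℝ,
        ‖L (1 / 2 + t * I)‖ ≤ C * Cond χ t ^ ε * WR l g q r Y χ t :=
  Pool.Agent.H31.FWX.All.x_WR m hm ε hε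

end Pool.Agent.H31.Kept.FriableWeyl
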