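import Pool.Agent.H31.GUF.All

/-!
# Gowers uniformity of every order for two point correlations of the Möbius function

`f m` is the product of the values of the Möbius function at `m + β i` to the powers `δ i`
(the Möbius function is `0` at the non positive integers).  For almost all scales `N` (in the
sense of logarithmic measure in every long interval `[x, y]`), the function `f` along a linear
form `a₀ n + b₀ . t` does not correlate with any bounded functions along linear forms
`a j n + b j . t` that are not proportional to it, for almost all `t` in `[-N, N] ^ R`, if exactly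
one or two of the exponents are odd, and for every number of odd exponents unless the
corresponding product of the Liouville function has a large sum over an arithmetic progression.
-/

set_option autoImplicit false

namespace Pool.Agent.Results.MP_c59857_nt.GowersUniformity

open Classical in
/-- Gowers uniformity: arbitrary bounded functions along linear forms. -/
theorem result (r : ℕ) (β : Fin r → ℤ) (δ : Fin r → ℕ) (hδ : ∀ i, 1 ≤ δ i) (R J : ℕ)
    (a₀ : ℤ) (b₀ : Fin R → ℤ) (a : Fin J → ℤ) (b : Fin J → Fin R → ℤ) (ha : a₀ ≠ 0)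
    (hb : ∀ j, ∃ i, a₀ * b j i ≠ a j * b₀ i) (η ρ : ℝ) (hη : 0 < η) (hρ : 0 < ρ) :
    ∃ K : ℕ, ∀ x y : ℕ, 0 < x → K * x ≤ y →
      ∑ N ∈ (Finset.Icc x y).filter (fun N : ℕ =>
        ((Function.Injective β ∧ ((Finset.univ.filter (fun i => Odd (δ i))).card = 1 ∨
            (Finset.univ.filter (fun i => Odd (δ i))).card = 2)) ∨
          ∀ q n₀ M : ℕ, 1 ≤ q → q ≤ K → M ≤ K * N →
            |∑ n ∈ (Finset.Icc 1 M).filter (fun n : ℕ => n ≡ n₀ [MOD q]),
              ∏ i ∈ Finset.univ.filter (fun i => Odd (δ i)),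
                (-1 : ℝ) ^ (ArithmeticFunction.cardFactors ((n : ℤ) + β i).toNat)| ≤
              (N : ℝ) / K) ∧
        ∃ F : Fin J → ℤ → ℂ, (∀ j m, ‖F j m‖ ≤ 1) ∧
          η * (N : ℝ) ^ R < (((Fintype.piFinset (fun _ : Fin R =>
            Finset.Icc (-(N : ℤ)) N)).filter (fun t => η * N <
              ‖∑ n ∈ Finset.Icc (1 : ℤ) N, ((∏ i, ((ArithmeticFunction.moebius
                ((a₀ * n + ∑ k, b₀ k * t k + β i).toNat) : ℤ) : ℝ) ^ δ i : ℝ) : ℂ) *
                  ∏ j, F j (a j * n + ∑ k, b j k * t k)‖)).card : ℝ)),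
        (1 / (N : ℝ)) ≤ ρ * Real.log ((y : ℝ) / x) := by
  obtain ⟨K, hK⟩ := Pool.Agent.H31.GUF.All.g_FNG r β δ R J a₀ b₀ a b η ρ hδ ha hb hη hρ
  refine ⟨K, fun x y hx hy => le_trans (le_of_eq ?_) (hK x y hx hy)⟩
  refine Finset.sum_congr ?_ fun _ _ => rfl
  refine Finset.filter_congr fun N _ => ?_
  refine and_congr (or_congr ⟨fun h => ⟨hδ, h⟩, fun h => h.2⟩ Iff.rfl) Iff.rfl

end Pool.Agent.Results.MP_c59857_nt.GowersUniformity
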