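import Pool.Agent.H21.LF.Fin
import Pool.Agent.H91.LF.Kat

/-!
# Chowla correlations along linear families of shifts and almost all primes

The shifts are `a i + b i . t + c i * p` with `t` in `[1, T] ^ m` (logarithmic averages) and `p` a
prime.  If one form with an odd exponent is affinely independent, with respect to its part
`(1, a i, b i)`, of the other ones with odd exponents, then the correlations of the Möbius
function tend to zero at almost all scales, for all primes outside a set whose sum of reciprocals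
is bounded.
-/

set_option autoImplicit false

namespace Pool.Agent.Results.MP_c59857_nt.LinearFamilies

open Classical in
/-- Linear families of shifts: bounded sum of the reciprocals of the exceptional primes. -/
theorem result (m r : ℕ) (a : Fin r → ℤ) (b : Fin r → Fin m → ℤ) (c : Fin r → ℤ)
    (ε : Fin r → ℕ) (q n₀ : ℕ) (j : Fin r) (hε : ∀ i, 1 ≤ ε i) (hj : Odd (ε j)) (hq : 0 < q)
    (hind : (Fin.cons 1 (Fin.cons (a j : ℚ) (fun l => (b j l : ℚ))) : Fin (m + 2) → ℚ) ∉
      Submodule.span ℚ {z | ∃ i, i ≠ j ∧ Odd (ε i) ∧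
        z = (Fin.cons 1 (Fin.cons (a i : ℚ) (fun l => (b i l : ℚ))) : Fin (m + 2) → ℚ)})
    (ρ : ℝ) (hρ : 0 < ρ) :
    ∃ C : ℝ, ∀ P : ℕ, ∃ T₀ : ℕ, ∀ T : ℕ, T₀ ≤ T → ∃ K : ℕ, ∀ x y : ℕ, 0 < x → K * x ≤ y →
      ∑ p ∈ ((Finset.Icc 1 P).filter Nat.Prime).filter (fun p : ℕ =>
        ρ * Real.log T ^ m * Real.log (y / x) <
          ∑ t ∈ Fintype.piFinset (fun _ : Fin m => Finset.Icc 1 T),
            (∏ l, (1 : ℝ) / t l) * ∑ N ∈ Finset.Icc x y, (1 / (N : ℝ)) *
              |(∑ n ∈ (Finset.Icc 1 N).filter (fun n : ℕ => n ≡ n₀ [MOD q]),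
                ∏ i, ((ArithmeticFunction.moebius
                  (((n : ℤ) + (a i + ∑ l, b i l * (t l : ℤ) + c i * (p : ℤ))).toNat) : ℤ) : ℝ)
                    ^ ε i) / N|),
        (1 / (p : ℝ)) ≤ C :=
  Pool.Agent.H21.LF.fin_main Pool.Agent.H91.LF.kat_main m r a b c ε q n₀ j hε hj hq hind ρ hρ

end Pool.Agent.Results.MP_c59857_nt.LinearFamilies
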